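import Mathlib

set_option autoImplicit false

/-!
Properties of a space `X` with a continuous injection `π : X → ℝ`, in which every point has a
countable compact neighbourhood, and such that every sequence of countable sets whose Euclidean
closures have uncountable intersection has a common accumulation point.
-/

open Topology Set Filter

namespace Pool.Agent.Lib.MP_c4305c_gt

/-- The properties of the space that are used below. -/
structure IsVD (X : Type) [TopologicalSpace X] (π : X → ℝ) : Prop where
  cont : Continuous π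
  inj : Function.Injective π
  loc : ∀ x : X, ∃ K ∈ 𝓝 x, IsCompact K ∧ K.Countable
  task : ∀ T : ℕ → ℕ → X, ¬ (⋂ n, closure (range fun k => π (T n k))).Countable →
    ∃ x : X, (∀ n k, T n k ≠ x) ∧ ∀ n, x ∈ closure (range (T n))
  unc : Uncountable X

variable {X : Type} [TopologicalSpace X] {π : X → ℝ}

theorem mem_nhds_infty_iff {Y : Type} [TopologicalSpace Y] {t : Set (OnePoint Y)} :
    t ∈ 𝓝 (OnePoint.infty : OnePoint Y) ↔
      ∃ s : Set Y, IsClosed s ∧ IsCompact s ∧ ((↑) '' s : Set (OnePoint Y))ᶜ ⊆ t := by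
  rw [OnePoint.hasBasis_nhds_infty.mem_iff]
  simp only [OnePoint.compl_image_coe, and_assoc]

theorem IsVD.t2 (h : IsVD X π) : T2Space X := T2Space.of_injective_continuous h.inj h.cont

theorem IsVD.wlc (h : IsVD X π) : WeaklyLocallyCompactSpace X :=
  ⟨fun x => by obtain ⟨K, hK, hc, -⟩ := h.loc x; exact ⟨K, hc, hK⟩⟩

theorem IsVD.t3 (h : IsVD X π) : T3Space X := by
  have := h.t2
  have := h.wlc
  infer_instance

/-- a countable sequence whose image is dense in the image of `H` -/
theorem IsVD.exists_dense_seq (_h : IsVD X π) {H : Set X} (hne : H.Nonempty) :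
    ∃ T : ℕ → X, (∀ k, T k ∈ H) ∧ closure (range fun k => π (T k)) = closure (π '' H) := by
  have hsep : TopologicalSpace.IsSeparable (π '' H) := TopologicalSpace.IsSeparable.of_separableSpace _
  obtain ⟨t, hts, htc, hst⟩ := hsep.exists_countable_dense_subset
  have htne : t.Nonempty := by
    by_contra hcon
    rw [not_nonempty_iff_eq_empty] at hcon
    subst hcon
    rw [closure_empty] at hst
    obtain ⟨x, hx⟩ := hne
    exact hst (mem_image_of_mem π hx)
  obtain ⟨f, hf⟩ := htc.exists_eq_range htne
  have hch : ∀ k, ∃ x ∈ H, π x = f k := by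
    intro k
    have : f k ∈ t := by rw [hf]; exact mem_range_self k
    exact hts this
  choose T hT1 hT2 using hch
  refine ⟨T, hT1, ?_⟩
  have : (range fun k => π (T k)) = t := by
    rw [hf]; congr 1; funext k; exact hT2 k
  rw [this]
  exact Subset.antisymm (closure_mono hts) (closure_minimal hst isClosed_closure)

/-- Claim A -/
theorem IsVD.countable_inter (h : IsVD X π) (H : ℕ → Set X) (hH : ∀ n, IsClosed (H n))
    (hemp : ⋂ n, H n = ∅) : (⋂ n, closure (π '' H n)).Countable := by
  by_cases hne : ∀ n, (H n).Nonempty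
  · by_contra hcon
    have hch : ∀ n, ∃ T : ℕ → X, (∀ k, T k ∈ H n) ∧
        closure (range fun k => π (T k)) = closure (π '' H n) := fun n => h.exists_dense_seq (hne n)
    choose T hT1 hT2 using hch
    have := h.task T (by simpa [hT2] using hcon)
    obtain ⟨x, -, hx⟩ := this
    have : x ∈ ⋂ n, H n := by
      rw [mem_iInter]
      intro n
      exact closure_minimal (range_subset_iff.2 (hT1 n)) (hH n) (hx n)
    rw [hemp] at this
    exact this
  · push Not at hne
    obtain ⟨n, hn⟩ := hne
    have : (⋂ n, closure (π '' H n)) ⊆ closure (π '' H n) := iInter_subset _ n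
    rw [hn, image_empty, closure_empty] at this
    exact (countable_empty).mono this

/-- an uncountable set has an accumulation point -/
theorem IsVD.exists_acc (h : IsVD X π) {E : Set X} (hE : ¬ E.Countable) :
    ∃ x, x ∈ closure (E \ {x}) := by
  have hne : E.Nonempty := by
    by_contra hcon
    rw [not_nonempty_iff_eq_empty] at hcon
    exact hE (hcon ▸ countable_empty)
  obtain ⟨T, hT1, hT2⟩ := h.exists_dense_seq hne
  have hunc : ¬ (⋂ _n : ℕ, closure (range fun k => π (T k))).Countable := by
    rw [iInter_const, hT2]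
    intro hc
    apply hE
    have : (π '' E).Countable := hc.mono subset_closure
    exact (countable_of_injective_of_countable_image (h.inj.injOn) this)
  obtain ⟨x, hx1, hx2⟩ := h.task (fun _ => T) hunc
  refine ⟨x, closure_mono ?_ (hx2 0)⟩
  rintro _ ⟨k, rfl⟩
  exact ⟨hT1 k, hx1 0 k⟩

theorem hasSeparatingCover_union {H₁ H₂ K : Set X} (h₁ : HasSeparatingCover H₁ K)
    (h₂ : HasSeparatingCover H₂ K) : HasSeparatingCover (H₁ ∪ H₂) K := by
  obtain ⟨u, hu, hu'⟩ := h₁
  obtain ⟨v, hv, hv'⟩ := h₂
  refine ⟨fun n => if n % 2 = 0 then u (n / 2) else v (n / 2), ?_, ?_⟩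
  · rintro x (hx | hx)
    · obtain ⟨n, hn⟩ := mem_iUnion.1 (hu hx)
      refine mem_iUnion.2 ⟨2 * n, ?_⟩
      have h1 : (2 * n) % 2 = 0 := by omega
      have h2 : (2 * n) / 2 = n := by omega
      simp only [h1, h2, if_true]; exact hn
    · obtain ⟨n, hn⟩ := mem_iUnion.1 (hv hx)
      refine mem_iUnion.2 ⟨2 * n + 1, ?_⟩
      have h1 : ¬ (2 * n + 1) % 2 = 0 := by omega
      have h2 : (2 * n + 1) / 2 = n := by omega
      simp only [h1, h2, if_false]; exact hn
  · intro n
    by_cases hn : n % 2 = 0
    · simp only [hn, if_true]; exact hu' _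
    · simp only [hn, if_false]; exact hv' _

theorem hasSeparatingCover_countable [RegularSpace X] {H K : Set X} (hH : H.Countable)
    (hK : IsClosed K) (hd : Disjoint H K) : HasSeparatingCover H K := by
  rcases H.eq_empty_or_nonempty with rfl | hne
  · exact hasSeparatingCover_empty_left K
  obtain ⟨f, hf⟩ := hH.exists_eq_range hne
  have hch : ∀ n, ∃ u : Set X, f n ∈ u ∧ IsOpen u ∧ Disjoint (closure u) K := by
    intro n
    have hfn : f n ∉ K := fun hmem => disjoint_left.1 hd (hf ▸ mem_range_self n) hmem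
    obtain ⟨t, ht, htc, hts⟩ := exists_mem_nhds_isClosed_subset (hK.isOpen_compl.mem_nhds hfn)
    refine ⟨interior t, mem_interior_iff_mem_nhds.2 ht, isOpen_interior, ?_⟩
    have : closure (interior t) ⊆ t := closure_minimal interior_subset htc
    exact disjoint_left.2 fun x hx hxK => hts (this hx) hxK
  choose u hu1 hu2 hu3 using hch
  refine ⟨u, ?_, fun n => ⟨hu2 n, hu3 n⟩⟩
  rw [hf]
  rintro _ ⟨n, rfl⟩
  exact mem_iUnion.2 ⟨n, hu1 n⟩

theorem IsVD.cover (h : IsVD X π) {H K : Set X} (hH : IsClosed H) (hK : IsClosed K)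
    (hd : Disjoint H K) : HasSeparatingCover H K := by
  have := h.t3
  rcases K.eq_empty_or_nonempty with rfl | hKne
  · exact hasSeparatingCover_empty_right H
  have hQ : (closure (π '' H) ∩ closure (π '' K)).Countable := by
    have := h.countable_inter (fun n => if n = 0 then H else K)
      (by intro n; by_cases hn : n = 0 <;> simp [hn, hH, hK])
      (by
        rw [eq_empty_iff_forall_notMem]
        intro x hx
        rw [mem_iInter] at hx
        have h0 := hx 0
        have h1 := hx 1
        simp only [if_true] at h0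
        simp only [one_ne_zero, if_false] at h1
        exact disjoint_left.1 hd h0 h1)
    refine this.mono ?_
    rintro y ⟨hy1, hy2⟩
    rw [mem_iInter]
    intro n
    by_cases hn : n = 0
    · simpa [hn] using hy1
    · simpa [hn] using hy2
  have hsplit : H = {x ∈ H | π x ∉ closure (π '' K)} ∪ {x ∈ H | π x ∈ closure (π '' K)} := by
    ext x
    simp only [mem_union, mem_ofPred_eq]
    tauto
  rw [hsplit]
  refine hasSeparatingCover_union ?_ ?_
  · refine ⟨fun n => {x | 1 / ((n : ℝ) + 1) < Metric.infDist (π x) (π '' K)}, ?_, ?_⟩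
    · rintro x ⟨-, hx⟩
      have hpos : 0 < Metric.infDist (π x) (π '' K) := by
        have h0 := Metric.infDist_nonneg (x := π x) (s := π '' K)
        rcases h0.lt_or_eq with h0 | h0
        · exact h0
        · exact absurd ((Metric.mem_closure_iff_infDist_zero (hKne.image π)).2 h0.symm) hx
      obtain ⟨n, hn⟩ := exists_nat_one_div_lt hpos
      exact mem_iUnion.2 ⟨n, hn⟩
    · intro n
      have hcont : Continuous fun x => Metric.infDist (π x) (π '' K) :=
        (Metric.continuous_infDist_pt _).comp h.cont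
      refine ⟨isOpen_lt continuous_const hcont, ?_⟩
      have hsub : closure {x | 1 / ((n : ℝ) + 1) < Metric.infDist (π x) (π '' K)} ⊆
          {x | 1 / ((n : ℝ) + 1) ≤ Metric.infDist (π x) (π '' K)} :=
        closure_minimal (by intro x hx; rw [mem_ofPred_eq] at hx ⊢; exact hx.le)
          (isClosed_le continuous_const hcont)
      refine disjoint_left.2 fun x hx hxK => ?_
      have h1 := hsub hx
      simp only [mem_ofPred_eq] at h1
      have h2 : Metric.infDist (π x) (π '' K) = 0 :=
        Metric.infDist_zero_of_mem (mem_image_of_mem π hxK)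
      rw [h2] at h1
      have : (0 : ℝ) < 1 / ((n : ℝ) + 1) := by positivity
      linarith
  · refine hasSeparatingCover_countable ?_ hK (hd.mono_left (fun x hx => hx.1))
    have : (π '' {x ∈ H | π x ∈ closure (π '' K)}).Countable := by
      refine hQ.mono ?_
      rintro _ ⟨x, ⟨hx1, hx2⟩, rfl⟩
      exact ⟨subset_closure (mem_image_of_mem π hx1), hx2⟩
    exact countable_of_injective_of_countable_image h.inj.injOn this

theorem IsVD.normal (h : IsVD X π) : NormalSpace X :=
  ⟨fun _ _ hs ht hd => hasSeparatingCovers_iff_separatedNhds.1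
    ⟨h.cover hs ht hd, h.cover ht hs hd.symm⟩⟩

/-- every discrete family of closed sets is separated -/
theorem IsVD.cwn (h : IsVD X π) {ι : Type} (F : ι → Set X) (hF : ∀ i, IsClosed (F i))
    (hdisc : ∀ x : X, ∃ W ∈ nhds x, ∀ i j, (W ∩ F i).Nonempty → (W ∩ F j).Nonempty → i = j) :
    ∃ V : ι → Set X, (∀ i, IsOpen (V i)) ∧ (∀ i, F i ⊆ V i) ∧
      Pairwise (Function.onFun Disjoint V) := by
  have := h.t2
  have := h.normal
  classical
  -- only countably many members are nonempty
  have hcount : {i | (F i).Nonempty}.Countable := by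
    by_contra hcon
    have hch : ∀ i : {i | (F i).Nonempty}, ∃ x, x ∈ F i := fun i => i.2
    choose a ha using hch
    have hainj : Function.Injective a := by
      intro i j hij
      obtain ⟨W, hW, hWd⟩ := hdisc (a i)
      have := hWd i j ⟨a i, mem_of_mem_nhds hW, ha i⟩ ⟨a i, mem_of_mem_nhds hW, hij ▸ ha j⟩
      exact Subtype.ext this
    have hE : ¬ (range a).Countable := by
      intro hc
      apply hcon
      have : Countable {i | (F i).Nonempty} := by
        have h1 : (a '' univ).Countable := by rwa [image_univ]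
        exact countable_univ_iff.1 (countable_of_injective_of_countable_image hainj.injOn h1)
      exact countable_coe_iff.1 this
    obtain ⟨x, hx⟩ := h.exists_acc hE
    obtain ⟨W, hW, hWd⟩ := hdisc x
    obtain ⟨y, hyW, ⟨⟨i, hi⟩, hyx⟩⟩ := mem_closure_iff_nhds.1 hx W hW
    have hyx' : y ≠ x := hyx
    have hW2 : W ∩ {y}ᶜ ∈ 𝓝 x := inter_mem hW (isClosed_singleton.isOpen_compl.mem_nhds
      (by intro hh; exact hyx' (mem_singleton_iff.1 hh).symm))
    obtain ⟨z, ⟨hzW, hzy⟩, ⟨⟨j, hj⟩, -⟩⟩ := mem_closure_iff_nhds.1 hx _ hW2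
    have hij : (i : ι) = j := hWd i j ⟨y, hyW, hi ▸ ha i⟩ ⟨z, hzW, hj ▸ ha j⟩
    apply hzy
    have : i = j := Subtype.ext hij
    rw [mem_singleton_iff, ← hi, ← hj, this]
  -- pairwise disjoint, and unions are closed
  have hlf : LocallyFinite F := by
    intro x
    obtain ⟨W, hW, hWd⟩ := hdisc x
    refine ⟨W, hW, ?_⟩
    refine Set.Subsingleton.finite ?_
    intro i hi j hj
    rw [mem_ofPred_eq, inter_comm] at hi hj
    exact hWd i j hi hj
  have hcl : ∀ s : Set ι, IsClosed (⋃ i ∈ s, F i) := by
    intro s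
    rw [biUnion_eq_iUnion]
    exact LocallyFinite.isClosed_iUnion (hlf.comp_injective Subtype.val_injective)
      (fun i => hF i)
  have hdisj : ∀ i j, i ≠ j → Disjoint (F i) (F j) := by
    intro i j hij
    refine disjoint_left.2 fun x hx hx' => hij ?_
    obtain ⟨W, hW, hWd⟩ := hdisc x
    exact hWd i j ⟨x, mem_of_mem_nhds hW, hx⟩ ⟨x, mem_of_mem_nhds hW, hx'⟩
  have hG : ∀ i, ∃ G : Set X, IsOpen G ∧ F i ⊆ G ∧ Disjoint (closure G) (⋃ j ∈ ({i}ᶜ : Set ι), F j) := by
    intro i
    have hd : Disjoint (F i) (⋃ j ∈ ({i}ᶜ : Set ι), F j) := by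
      rw [disjoint_iUnion₂_right]
      intro j hj
      exact hdisj i j (fun hh => hj (by simp [hh]))
    have hsub : F i ⊆ (⋃ j ∈ ({i}ᶜ : Set ι), F j)ᶜ := fun x hx hx' => disjoint_left.1 hd hx hx'
    obtain ⟨G, hG1, hG2, hG3⟩ := normal_exists_closure_subset (hF i) (hcl _).isOpen_compl hsub
    exact ⟨G, hG1, hG2, disjoint_left.2 fun x hx hx' => hG3 hx hx'⟩
  choose G hG1 hG2 hG3 using hG
  -- an injection of the nonempty indices into ℕ
  obtain ⟨e, he⟩ := countable_iff_exists_injOn.1 hcount
  refine ⟨fun i => if (F i).Nonempty then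
      G i ∩ (⋃ j ∈ {j | (F j).Nonempty ∧ e j < e i}, closure (G j))ᶜ else ∅, ?_, ?_, ?_⟩
  · intro i
    by_cases hi : (F i).Nonempty
    · simp only [hi, if_true]
      refine (hG1 i).inter ?_
      rw [isOpen_compl_iff]
      have hfin : {j | (F j).Nonempty ∧ e j < e i}.Finite := by
        refine Set.Finite.of_finite_image (f := e) ?_ (he.mono (fun j hj => hj.1))
        exact (finite_Iio (e i)).subset (by rintro _ ⟨j, hj, rfl⟩; exact hj.2)
      exact hfin.isClosed_biUnion fun j _ => isClosed_closure
    · simp only [hi, if_false]; exact isOpen_empty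
  · intro i x hx
    have hi : (F i).Nonempty := ⟨x, hx⟩
    simp only [hi, if_true]
    refine ⟨hG2 i hx, ?_⟩
    intro hcon
    simp only [mem_iUnion, mem_ofPred_eq, exists_prop] at hcon
    obtain ⟨j, ⟨-, hji⟩, hxj⟩ := hcon
    have hij : i ≠ j := by
      intro hh; rw [hh] at hji; exact lt_irrefl _ hji
    refine disjoint_left.1 (hG3 j) hxj ?_
    simp only [mem_iUnion]
    exact ⟨i, by simpa using hij, hx⟩
  · intro i j hij
    rw [Function.onFun, disjoint_left]
    intro x hx hx'
    by_cases hi : (F i).Nonempty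
    · by_cases hj : (F j).Nonempty
      · simp only [hi, hj, if_true] at hx hx'
        have hne : e i ≠ e j := fun hh => hij (he hi hj hh)
        rcases lt_or_gt_of_ne hne with hlt | hlt
        · apply hx'.2
          simp only [mem_iUnion, mem_ofPred_eq, exists_prop]
          exact ⟨i, ⟨hi, hlt⟩, subset_closure hx.1⟩
        · apply hx.2
          simp only [mem_iUnion, mem_ofPred_eq, exists_prop]
          exact ⟨j, ⟨hj, hlt⟩, subset_closure hx'.1⟩
      · simp only [hj, if_false] at hx'; exact hx'
    · simp only [hi, if_false] at hx; exact hx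

/-- countable paracompactness -/
theorem IsVD.cpara (h : IsVD X π) {ι : Type} [Countable ι] (U : ι → Set X)
    (hU : ∀ i, IsOpen (U i)) (hcov : (⋃ i, U i) = univ) :
    ∃ V : ι → Set X, (∀ i, IsOpen (V i)) ∧ (∀ i, V i ⊆ U i) ∧
      (⋃ i, V i) = univ ∧ LocallyFinite V := by
  classical
  have := h.t3
  obtain ⟨e, he⟩ := exists_injective_nat ι
  -- decreasing closed sets
  let F : ℕ → Set X := fun n => (⋃ i ∈ {i | e i < n}, U i)ᶜ
  have hFanti : Antitone F := by
    intro m n hmn
    apply compl_subset_compl.2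
    exact biUnion_subset_biUnion_left fun i (hi : e i < m) => lt_of_lt_of_le hi hmn
  have hFcl : ∀ n, IsClosed (F n) := fun n =>
    isClosed_compl_iff.2 (isOpen_biUnion fun i _ => hU i)
  have hFemp : ⋂ n, F n = ∅ := by
    rw [eq_empty_iff_forall_notMem]
    intro x hx
    rw [mem_iInter] at hx
    have hx' : x ∈ ⋃ i, U i := by rw [hcov]; trivial
    obtain ⟨i, hi⟩ := mem_iUnion.1 hx'
    apply hx (e i + 1)
    simp only [mem_iUnion, mem_ofPred_eq, exists_prop]
    exact ⟨i, Nat.lt_succ_self _, hi⟩
  have hQ := h.countable_inter F hFcl hFemp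
  -- open decreasing sets with closures having empty intersection
  obtain ⟨W, hWo, hWanti, hWF, hWemp⟩ : ∃ W : ℕ → Set X, (∀ n, IsOpen (W n)) ∧ Antitone W ∧
      (∀ n, F n ⊆ W n) ∧ ∀ x, ∃ n, x ∉ closure (W n) := by
    -- the countable exceptional set
    set Q : Set X := {x | π x ∈ ⋂ n, closure (π '' F n)} with hQdef
    have hQc : Q.Countable := by
      have : (π '' Q).Countable := hQ.mono (by rintro _ ⟨x, hx, rfl⟩; exact hx)
      exact countable_of_injective_of_countable_image h.inj.injOn this
    obtain ⟨q, hq⟩ : ∃ q : ℕ → Option X, ∀ x ∈ Q, ∃ n, q n = some x := by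
      rcases Q.eq_empty_or_nonempty with hQe | hQne
      · exact ⟨fun _ => none, by rw [hQe]; simp⟩
      · obtain ⟨f, hf⟩ := hQc.exists_eq_range hQne
        refine ⟨fun n => some (f n), fun x hx => ?_⟩
        rw [hf] at hx
        obtain ⟨n, rfl⟩ := hx
        exact ⟨n, rfl⟩
    -- closed neighbourhoods
    have hN : ∀ x : X, ∃ n : ℕ, ∃ N : Set X, N ∈ 𝓝 x ∧ IsClosed N ∧ Disjoint N (F n) := by
      intro x
      have : x ∉ ⋂ n, F n := by rw [hFemp]; exact notMem_empty x
      rw [mem_iInter] at this
      push Not at this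
      obtain ⟨n, hn⟩ := this
      obtain ⟨t, ht, htc, hts⟩ := exists_mem_nhds_isClosed_subset ((hFcl n).isOpen_compl.mem_nhds hn)
      exact ⟨n, t, ht, htc, disjoint_left.2 fun y hy hy' => hts hy hy'⟩
    choose m N hN1 hN2 hN3 using hN
    -- the Euclidean part
    let B : ℕ → Set X := fun n => {y | Metric.infEDist (π y) (π '' F n) < ENNReal.ofReal (1 / ((n : ℝ) + 1))}
    let C : ℕ → Set X := fun n => ⋃ j ∈ {j | j < n ∧ ∃ x, q j = some x ∧ m x ≤ n},
      (match q j with | none => (∅ : Set X) | some x => N x)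
    have hBo : ∀ n, IsOpen (B n) := fun n =>
      isOpen_lt (Metric.continuous_infEDist.comp h.cont) continuous_const
    have hCc : ∀ n, IsClosed (C n) := by
      intro n
      have hfin : {j | j < n ∧ ∃ x, q j = some x ∧ m x ≤ n}.Finite :=
        (finite_Iio n).subset fun j hj => hj.1
      refine hfin.isClosed_biUnion ?_
      rintro j ⟨-, x, hx, -⟩
      simp only [hx]
      exact hN2 x
    have hBanti : Antitone B := by
      intro a b hab y hy
      simp only [B, mem_ofPred_eq] at hy ⊢
      have h1 : Metric.infEDist (π y) (π '' F a) ≤ Metric.infEDist (π y) (π '' F b) :=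
        Metric.infEDist_anti (image_mono (hFanti hab))
      have h2 : ENNReal.ofReal (1 / ((b : ℝ) + 1)) ≤ ENNReal.ofReal (1 / ((a : ℝ) + 1)) := by
        apply ENNReal.ofReal_le_ofReal
        apply one_div_le_one_div_of_le (by positivity)
        have : (a : ℝ) ≤ b := by exact_mod_cast hab
        linarith
      exact lt_of_le_of_lt h1 (lt_of_lt_of_le hy h2)
    have hCmono : Monotone C := by
      intro a b hab
      refine biUnion_subset_biUnion_left ?_
      rintro j ⟨hj, x, hx, hmx⟩
      exact ⟨lt_of_lt_of_le hj hab, x, hx, hmx.trans hab⟩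
    refine ⟨fun n => B n ∩ (C n)ᶜ, fun n => (hBo n).inter (hCc n).isOpen_compl, ?_, ?_, ?_⟩
    · intro a b hab
      exact inter_subset_inter (hBanti hab) (compl_subset_compl.2 (hCmono hab))
    · intro n y hy
      refine ⟨?_, ?_⟩
      · simp only [B, mem_ofPred_eq]
        rw [Metric.infEDist_zero_of_mem (mem_image_of_mem π hy)]
        apply ENNReal.ofReal_pos.2
        positivity
      · intro hyC
        simp only [C, mem_iUnion, exists_prop, mem_ofPred_eq] at hyC
        obtain ⟨j, ⟨hj, x, hx, hmx⟩, hyj⟩ := hyC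
        simp only [hx] at hyj
        exact disjoint_left.1 (hN3 x) hyj (hFanti hmx hy)
    · intro x
      by_cases hxQ : x ∈ Q
      · obtain ⟨j, hj⟩ := hq x hxQ
        refine ⟨max (j + 1) (m x), ?_⟩
        intro hcon
        obtain ⟨y, hyN, hyW⟩ := mem_closure_iff_nhds.1 hcon (N x) (hN1 x)
        apply hyW.2
        simp only [C, mem_iUnion, exists_prop, mem_ofPred_eq]
        refine ⟨j, ⟨lt_of_lt_of_le (Nat.lt_succ_self j) (le_max_left _ _), x, hj, le_max_right _ _⟩, ?_⟩
        simp only [hj]
        exact hyN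
      · rw [hQdef, mem_ofPred_eq, mem_iInter] at hxQ
        push Not at hxQ
        obtain ⟨k, hk⟩ := hxQ
        have hpos : 0 < Metric.infEDist (π x) (π '' F k) := by
          rw [pos_iff_ne_zero]
          intro h0
          exact hk (Metric.mem_closure_iff_infEDist_zero.2 h0)
        obtain ⟨r, hr0, hr⟩ : ∃ r : ℝ, 0 < r ∧ ENNReal.ofReal r < Metric.infEDist (π x) (π '' F k) := by
          obtain ⟨c, hc0, hc⟩ := exists_between hpos
          have hcne : c ≠ ⊤ := ne_top_of_lt hc
          refine ⟨c.toReal, ENNReal.toReal_pos hc0.ne' hcne, ?_⟩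
          rwa [ENNReal.ofReal_toReal hcne]
        obtain ⟨n0, hn0⟩ := exists_nat_one_div_lt hr0
        refine ⟨max n0 k, ?_⟩
        intro hcon
        have hsub : closure (B (max n0 k) ∩ (C (max n0 k))ᶜ) ⊆
            {y | Metric.infEDist (π y) (π '' F (max n0 k)) ≤
              ENNReal.ofReal (1 / (((max n0 k : ℕ) : ℝ) + 1))} := by
          refine closure_minimal ?_ (isClosed_le (Metric.continuous_infEDist.comp h.cont) continuous_const)
          rintro y ⟨hy, -⟩
          simp only [B, mem_ofPred_eq] at hy ⊢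
          exact hy.le
        have h1 := hsub hcon
        simp only [mem_ofPred_eq] at h1
        have h2 : Metric.infEDist (π x) (π '' F k) ≤ Metric.infEDist (π x) (π '' F (max n0 k)) :=
          Metric.infEDist_anti (image_mono (hFanti (le_max_right _ _)))
        have h3 : ENNReal.ofReal (1 / (((max n0 k : ℕ) : ℝ) + 1)) ≤ ENNReal.ofReal r := by
          apply ENNReal.ofReal_le_ofReal
          refine le_trans ?_ hn0.le
          apply one_div_le_one_div_of_le (by positivity)
          have : (n0 : ℝ) ≤ ((max n0 k : ℕ) : ℝ) := by exact_mod_cast le_max_left _ _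
          linarith
        exact absurd (h2.trans (h1.trans h3)) (not_le.2 hr)
  refine ⟨fun i => U i ∩ W (e i), fun i => (hU i).inter (hWo _), fun i => inter_subset_left, ?_, ?_⟩
  · rw [eq_univ_iff_forall]
    intro x
    have hx' : ∃ n, ∃ i, e i = n ∧ x ∈ U i := by
      have : x ∈ ⋃ i, U i := by rw [hcov]; trivial
      obtain ⟨i, hi⟩ := mem_iUnion.1 this
      exact ⟨e i, i, rfl, hi⟩
    obtain ⟨i, hin, hi⟩ := Nat.find_spec hx'
    refine mem_iUnion.2 ⟨i, hi, hWF _ ?_⟩
    intro hcon
    simp only [mem_iUnion, mem_ofPred_eq, exists_prop] at hcon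
    obtain ⟨j, hj, hxj⟩ := hcon
    rw [hin] at hj
    exact Nat.find_min hx' hj ⟨j, rfl, hxj⟩
  · intro x
    obtain ⟨n, hn⟩ := hWemp x
    refine ⟨(closure (W n))ᶜ, isClosed_closure.isOpen_compl.mem_nhds hn, ?_⟩
    refine Set.Finite.subset (Set.Finite.preimage he.injOn (finite_Iio n)) ?_
    rintro i ⟨y, ⟨-, hy2⟩, hy3⟩
    rw [mem_preimage, mem_Iio]
    by_contra hcon
    push Not at hcon
    exact hy3 (subset_closure (hWanti hcon hy2))

/-- the product with the one-point compactification is not normal -/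
theorem IsVD.not_normal_prod (h : IsVD X π) : ¬ NormalSpace (X × OnePoint X) := by
  have := h.t2
  have := h.wlc
  intro hnorm
  have hA : IsClosed (range fun x : X => ((x, (x : OnePoint X)) : X × OnePoint X)) := by
    have : (range fun x : X => ((x, (x : OnePoint X)) : X × OnePoint X)) =
        {p : X × OnePoint X | ((p.1 : X) : OnePoint X) = p.2} := by
      ext ⟨a, b⟩
      simp only [mem_range, Prod.mk.injEq, mem_ofPred_eq]
      constructor
      · rintro ⟨x, rfl, rfl⟩; rfl
      · intro hh; exact ⟨a, rfl, hh⟩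
    rw [this]
    exact isClosed_eq (OnePoint.continuous_coe.comp continuous_fst) continuous_snd
  have hB : IsClosed {p : X × OnePoint X | p.2 = OnePoint.infty} :=
    isClosed_eq continuous_snd continuous_const
  have hAB : Disjoint (range fun x : X => ((x, (x : OnePoint X)) : X × OnePoint X))
      {p : X × OnePoint X | p.2 = OnePoint.infty} := by
    rw [disjoint_left]
    rintro _ ⟨x, rfl⟩ hx
    exact OnePoint.coe_ne_infty x hx
  obtain ⟨G, H, hG, hH, hAG, hBH, hGH⟩ := hnorm.normal _ _ hA hB hAB
  -- the relation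
  let R : X → X → Prop := fun x y => ((x, (y : OnePoint X)) : X × OnePoint X) ∈ G ∧
    ((y, (x : OnePoint X)) : X × OnePoint X) ∈ G
  have hRsymm : ∀ x y, R x y → R y x := fun x y hxy => ⟨hxy.2, hxy.1⟩
  have hRcount : ∀ x, {y | R x y}.Countable := by
    intro x
    have hx : ((x, OnePoint.infty) : X × OnePoint X) ∈ H := hBH rfl
    have hnb : {z : OnePoint X | ((x, z) : X × OnePoint X) ∈ H} ∈ 𝓝 (OnePoint.infty : OnePoint X) :=
      (hH.preimage (by fun_prop : Continuous fun z : OnePoint X => ((x, z) : X × OnePoint X))).mem_nhds hx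
    rw [mem_nhds_infty_iff] at hnb
    obtain ⟨s, hsc, hsk, hs⟩ := hnb
    have hsub : {y | R x y} ⊆ s := by
      intro y hy
      by_contra hys
      have : ((x, (y : OnePoint X)) : X × OnePoint X) ∈ H := by
        have h2 : (y : OnePoint X) ∈ ((↑) '' s : Set (OnePoint X))ᶜ := by
          rintro ⟨z, hz, hzy⟩
          exact hys (OnePoint.coe_injective hzy ▸ hz)
        exact hs h2
      exact disjoint_left.1 hGH hy.1 this
    refine Set.Countable.mono hsub ?_
    -- compact sets are countable
    choose K hK1 _ hK3 using h.loc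
    obtain ⟨t, -, ht⟩ := hsk.elim_nhds_subcover K (fun x _ => hK1 x)
    exact (Set.Countable.biUnion t.countable_toSet (fun x _ => hK3 x)).mono ht
  -- a maximal R-discrete set
  obtain ⟨E, hE⟩ := zorn_subset {E : Set X | ∀ x ∈ E, ∀ y ∈ E, x ≠ y → ¬ R x y} (by
    intro c hc hchain
    refine ⟨⋃₀ c, ?_, fun s hs => subset_sUnion_of_mem hs⟩
    rintro x ⟨s, hs, hxs⟩ y ⟨t, ht, hyt⟩ hxy
    rcases hchain.total hs ht with hst | hst
    · exact hc ht x (hst hxs) y hyt hxy
    · exact hc hs x hxs y (hst hyt) hxy)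
  have hEunc : ¬ E.Countable := by
    intro hEc
    have hcov : (univ : Set X) ⊆ ⋃ x ∈ E, {y | R x y} := by
      intro y _
      by_contra hy
      simp only [mem_iUnion, mem_ofPred_eq, exists_prop, not_exists, not_and] at hy
      have hyE : y ∉ E := by
        intro hyE
        exact hy y hyE ⟨hAG ⟨y, rfl⟩, hAG ⟨y, rfl⟩⟩
      have hins : insert y E ∈ {E : Set X | ∀ x ∈ E, ∀ y ∈ E, x ≠ y → ¬ R x y} := by
        rintro a (rfl | ha) b (rfl | hb) hab
        · exact absurd rfl hab
        · exact fun hR => hy b hb (hRsymm _ _ hR)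
        · exact hy a ha
        · exact hE.prop a ha b hb hab
      have := hE.le_of_ge hins (subset_insert y E) (mem_insert y E)
      exact hyE this
    have : (univ : Set X).Countable := (hEc.biUnion fun x _ => hRcount x).mono hcov
    exact h.unc.not_countable (countable_univ_iff.1 this)
  obtain ⟨x, hx⟩ := h.exists_acc hEunc
  have hxG : ((x, (x : OnePoint X)) : X × OnePoint X) ∈ G := hAG ⟨x, rfl⟩
  have hnb : {p : X × X | ((p.1, (p.2 : OnePoint X)) : X × OnePoint X) ∈ G} ∈ 𝓝 (x, x) :=
    (hG.preimage ((continuous_fst.prodMk (OnePoint.continuous_coe.comp continuous_snd)))).mem_nhds hxG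
  rw [nhds_prod_eq, mem_prod_same_iff] at hnb
  obtain ⟨O, hO, hOG⟩ := hnb
  obtain ⟨y, hyO, hyE, hyx⟩ := mem_closure_iff_nhds.1 hx O hO
  have hyx' : y ≠ x := hyx
  have hO2 : O ∩ {y}ᶜ ∈ 𝓝 x := inter_mem hO (isClosed_singleton.isOpen_compl.mem_nhds
      (by intro hh; exact hyx' (mem_singleton_iff.1 hh).symm))
  obtain ⟨z, ⟨hzO, hzy⟩, hzE, -⟩ := mem_closure_iff_nhds.1 hx _ hO2
  have hyz : y ≠ z := fun hh => hzy (by rw [hh]; rfl)
  exact hE.prop y hyE z hzE hyz ⟨hOG (mk_mem_prod hyO hzO), hOG (mk_mem_prod hzO hyO)⟩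

/-- countable tightness of the one-point compactification -/
theorem IsVD.tight (h : IsVD X π) (S : Set (OnePoint X)) (c : OnePoint X) (hc : c ∈ closure S) :
    ∃ S₀ ⊆ S, S₀.Countable ∧ c ∈ closure S₀ := by
  have := h.t2
  have := h.wlc
  induction c using OnePoint.rec with
  | infty =>
    by_cases hinf : (OnePoint.infty : OnePoint X) ∈ S
    · exact ⟨{OnePoint.infty}, by simpa using hinf, countable_singleton _, subset_closure rfl⟩
    · -- the part in X
      set A : Set X := {x | (x : OnePoint X) ∈ S} with hA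
      have hSA : S = (↑) '' A := by
        ext z
        induction z using OnePoint.rec with
        | infty => simp [hinf]
        | coe x => simp [hA]
      have hAne : A.Nonempty := by
        by_contra hcon
        rw [not_nonempty_iff_eq_empty] at hcon
        rw [hSA, hcon, image_empty, closure_empty] at hc
        exact hc
      obtain ⟨T, hT1, hT2⟩ := h.exists_dense_seq hAne
      refine ⟨(↑) '' (range T), ?_, (countable_range T).image _, ?_⟩
      · rw [hSA]
        exact image_mono (range_subset_iff.2 hT1)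
      · rw [mem_closure_iff_nhds]
        intro t ht
        rw [mem_nhds_infty_iff] at ht
        obtain ⟨s, hsc, hsk, hs⟩ := ht
        by_contra hcon
        rw [not_nonempty_iff_eq_empty] at hcon
        have hTs : range T ⊆ s := by
          rintro _ ⟨k, rfl⟩
          by_contra hk
          have h2 : (T k : OnePoint X) ∈ ((↑) '' s : Set (OnePoint X))ᶜ := by
            rintro ⟨z, hz, hzy⟩
            exact hk (OnePoint.coe_injective hzy ▸ hz)
          have : (T k : OnePoint X) ∈ t ∩ (↑) '' (range T) := ⟨hs h2, mem_image_of_mem _ ⟨k, rfl⟩⟩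
          rw [hcon] at this
          exact this
        have hAs : A ⊆ s := by
          intro x hx
          have h1 : π x ∈ closure (range fun k => π (T k)) := by
            rw [hT2]; exact subset_closure (mem_image_of_mem π hx)
          have h2 : closure (range fun k => π (T k)) ⊆ π '' s := by
            refine closure_minimal ?_ (hsk.image h.cont).isClosed
            rintro _ ⟨k, rfl⟩
            exact mem_image_of_mem π (hTs ⟨k, rfl⟩)
          obtain ⟨y, hy, hyx⟩ := h2 h1
          exact h.inj hyx ▸ hy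
        have hnb : ((↑) '' s : Set (OnePoint X))ᶜ ∈ 𝓝 (OnePoint.infty : OnePoint X) := by
          rw [mem_nhds_infty_iff]
          exact ⟨s, hsc, hsk, subset_rfl⟩
        obtain ⟨z, hz1, hz2⟩ := mem_closure_iff_nhds.1 hc _ hnb
        rw [hSA] at hz2
        exact hz1 (image_mono hAs hz2)
  | coe x =>
    obtain ⟨K, hK, -, hKc⟩ := h.loc x
    have hK' : ((↑) '' K : Set (OnePoint X)) ∈ 𝓝 (x : OnePoint X) :=
      OnePoint.isOpenEmbedding_coe.image_mem_nhds.2 hK
    refine ⟨S ∩ (↑) '' K, inter_subset_left, (hKc.image _).mono inter_subset_right, ?_⟩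
    rw [mem_closure_iff_nhds]
    intro t ht
    obtain ⟨z, ⟨hz1, hz2⟩, hz3⟩ := mem_closure_iff_nhds.1 hc _ (inter_mem ht hK')
    exact ⟨z, hz1, hz3, hz2⟩

end Pool.Agent.Lib.MP_c4305c_gt
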