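import Mathlib
import Pool.Agent.Lib.MP_c4305c_gt.Vd

set_option autoImplicit false

/-!
Construction of the space: the points are the reals, well-ordered in the order type of the
continuum.  Points in a set `S` have a sequence `Y x k` of earlier points converging to them, and
the basic neighbourhoods are generated by these sequences.
-/

open Topology Set Filter Cardinal

namespace Pool.Agent.Lib.MP_c4305c_gt

/-- a family of large sets has an injective transversal -/
theorem exists_transversal {J α : Type} (S : J → Set α) (h : ∀ i, #J ≤ #(S i)) :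
    ∃ f : J → α, Function.Injective f ∧ ∀ i, f i ∈ S i := by
  classical
  have hcard : #J = #((#J).ord.ToType) := (mk_ord_toType _).symm
  obtain ⟨e⟩ := Cardinal.eq.1 hcard
  have key : ∀ (i : J) (prev : ∀ j : J, e j < e i → α), ∃ a ∈ S i, ∀ (j : J) (hj : e j < e i),
      prev j hj ≠ a := by
    intro i prev
    by_contra hcon
    push Not at hcon
    have hsub : S i ⊆ range (fun j : {j : J // e j < e i} => prev j.1 j.2) := by
      intro a ha
      obtain ⟨j, hj, hja⟩ := hcon a ha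
      exact ⟨⟨j, hj⟩, hja⟩
    have h1 : #(S i) ≤ #{j : J // e j < e i} := (mk_le_mk_of_subset hsub).trans mk_range_le
    have h2 : #{j : J // e j < e i} ≤ #(Iio (e i)) :=
      mk_le_of_injective (f := fun j => (⟨e j.1, j.2⟩ : Iio (e i)))
        (fun a b hab => Subtype.ext (e.injective (Subtype.ext_iff.1 hab)))
    have h3 : #(Iio (e i)) < #J := mk_Iio_toType_ord_lt (e i)
    exact absurd ((h i).trans (h1.trans h2)) (not_le.2 h3)
  choose g hg1 hg2 using key
  have wf : WellFounded (fun a b : J => e a < e b) := InvImage.wf e wellFounded_lt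
  let f : J → α := wf.fix g
  have hf : ∀ i, f i = g i (fun j _ => f j) := fun i => wf.fix_eq g i
  refine ⟨f, ?_, fun i => by rw [hf]; exact hg1 _ _⟩
  have hlt : ∀ i j, e i < e j → f i ≠ f j := by
    intro i j hij
    have := hg2 j (fun k _ => f k) i hij
    rwa [← hf] at this
  intro i j hij
  rcases lt_trichotomy (e i) (e j) with h' | h' | h'
  · exact absurd hij (hlt i j h')
  · exact e.injective h'
  · exact absurd hij.symm (hlt j i h')

/-- membership in basic neighbourhoods -/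
inductive InU (S : Set ℝ) (Y : ℝ → ℕ → ℝ) : ℝ → ℕ → ℝ → Prop
  | refl (x : ℝ) (m : ℕ) : InU S Y x m x
  | step (x : ℝ) (m k : ℕ) (z : ℝ) : x ∈ S → m ≤ k → InU S Y (Y x k) (k + 1) z → InU S Y x m z

/-- the underlying type of the space -/
def Sp (_S : Set ℝ) (_Y : ℝ → ℕ → ℝ) : Type := ℝ

section Sp

variable (S : Set ℝ) (Y : ℝ → ℕ → ℝ)

/-- basic neighbourhoods -/
def nb (x : Sp S Y) (m : ℕ) : Set (Sp S Y) := {z | InU S Y x m z}

variable {S Y}

theorem mem_nb {x z : Sp S Y} {m : ℕ} : z ∈ nb S Y x m ↔ InU S Y x m z := Iff.rfl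

theorem nb_anti (x : Sp S Y) {m n : ℕ} (h : m ≤ n) : nb S Y x n ⊆ nb S Y x m := by
  intro z hz
  rw [mem_nb] at hz ⊢
  cases hz with
  | refl => exact InU.refl _ _
  | step _ _ k _ hx hk hz => exact InU.step _ _ k _ hx (h.trans hk) hz

instance : TopologicalSpace (Sp S Y) where
  IsOpen G := ∀ x ∈ G, ∃ m, nb S Y x m ⊆ G
  isOpen_univ := fun _ _ => ⟨0, subset_univ _⟩
  isOpen_inter := by
    intro G H hG hH x hx
    obtain ⟨m, hm⟩ := hG x hx.1
    obtain ⟨n, hn⟩ := hH x hx.2
    exact ⟨max m n, subset_inter ((nb_anti x (le_max_left _ _)).trans hm)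
      ((nb_anti x (le_max_right _ _)).trans hn)⟩
  isOpen_sUnion := by
    intro 𝒢 h𝒢 x hx
    obtain ⟨G, hG, hxG⟩ := hx
    obtain ⟨m, hm⟩ := h𝒢 G hG x hxG
    exact ⟨m, hm.trans (subset_sUnion_of_mem hG)⟩

theorem isOpen_iff {G : Set (Sp S Y)} : IsOpen G ↔ ∀ x ∈ G, ∃ m, nb S Y x m ⊆ G := Iff.rfl

theorem self_mem_nb (x : Sp S Y) (m : ℕ) : x ∈ nb S Y x m := InU.refl _ _

theorem isOpen_nb (x : Sp S Y) (m : ℕ) : IsOpen (nb S Y x m) := by
  rw [isOpen_iff]
  intro z hz
  rw [mem_nb] at hz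
  induction hz with
  | refl x m => exact ⟨m, subset_rfl⟩
  | step x m k z hx hk _ ih =>
    obtain ⟨n, hn⟩ := ih
    exact ⟨n, fun w hw => InU.step _ _ k _ hx hk (hn hw)⟩

theorem nb_mem_nhds (x : Sp S Y) (m : ℕ) : nb S Y x m ∈ 𝓝 x :=
  (isOpen_nb x m).mem_nhds (self_mem_nb x m)

theorem mem_nhds_iff' {x : Sp S Y} {t : Set (Sp S Y)} : t ∈ 𝓝 x ↔ ∃ m, nb S Y x m ⊆ t := by
  constructor
  · intro h
    obtain ⟨G, hGt, hG, hx⟩ := mem_nhds_iff.1 h
    obtain ⟨m, hm⟩ := hG x hx
    exact ⟨m, hm.trans hGt⟩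
  · rintro ⟨m, hm⟩
    exact mem_of_superset (nb_mem_nhds x m) hm

/-- the identity map to the reals -/
def proj (S : Set ℝ) (Y : ℝ → ℕ → ℝ) : Sp S Y → ℝ := fun x => x

theorem dist_lt (hY : ∀ x ∈ S, ∀ k, dist (Y x k) x < (1 / 2) ^ (k + 1)) {x z : ℝ} {m : ℕ}
    (h : InU S Y x m z) : dist z x < (1 / 2) ^ m := by
  induction h with
  | refl x m => rw [dist_self]; positivity
  | step x m k z hx hk _ ih =>
    calc dist z x ≤ dist z (Y x k) + dist (Y x k) x := dist_triangle _ _ _
      _ < (1 / 2) ^ (k + 1) + (1 / 2) ^ (k + 1) := add_lt_add ih (hY x hx k)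
      _ = (1 / 2) ^ k := by rw [pow_succ]; ring
      _ ≤ (1 / 2) ^ m := pow_le_pow_of_le_one (by norm_num) (by norm_num) hk

theorem continuous_proj (hY : ∀ x ∈ S, ∀ k, dist (Y x k) x < (1 / 2) ^ (k + 1)) :
    Continuous (proj S Y) := by
  rw [continuous_iff_continuousAt]
  intro x
  rw [ContinuousAt, Metric.tendsto_nhds]
  intro ε hε
  obtain ⟨m, hm⟩ := exists_pow_lt_of_lt_one hε (by norm_num : (1 / 2 : ℝ) < 1)
  filter_upwards [nb_mem_nhds x m] with z hz
  exact (dist_lt hY hz).trans hm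

/-- decomposition of a basic neighbourhood -/
theorem nb_eq (x : Sp S Y) (m : ℕ) (hx : (x : ℝ) ∈ S) :
    nb S Y x m = {x} ∪ ⋃ k ∈ {k | m ≤ k}, nb S Y (Y x k : ℝ) (k + 1) := by
  ext z
  rw [mem_nb]
  constructor
  · intro h
    cases h with
    | refl => exact Or.inl rfl
    | step _ _ k _ _ hk hz =>
      right
      simp only [mem_iUnion, exists_prop]
      exact ⟨k, hk, hz⟩
  · rintro (h | h)
    · rw [mem_singleton_iff] at h
      rw [h]
      exact InU.refl _ _
    · simp only [mem_iUnion, exists_prop] at h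
      obtain ⟨k, hk, hz⟩ := h
      exact InU.step _ _ k _ hx hk hz

theorem nb_eq' (x : Sp S Y) (m : ℕ) (hx : (x : ℝ) ∉ S) : nb S Y x m = {x} := by
  ext z
  rw [mem_nb]
  constructor
  · intro h
    cases h with
    | refl => exact rfl
    | step _ _ k _ hx' _ _ => exact absurd hx' hx
  · intro h
    rw [mem_singleton_iff] at h
    rw [h]
    exact InU.refl _ _

theorem countable_nb {W : Type} [LinearOrder W] [WellFoundedLT W] (φ : ℝ → W)
    (hφ : ∀ x ∈ S, ∀ k, φ (Y x k) < φ x) (x : Sp S Y) : ∀ m, (nb S Y x m).Countable := by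
  have wf : WellFounded (fun a b : ℝ => φ a < φ b) := InvImage.wf φ wellFounded_lt
  refine wf.induction (C := fun x : ℝ => ∀ m, (nb S Y (x : Sp S Y) m).Countable) x ?_
  intro x ih m
  by_cases hx : x ∈ S
  · rw [nb_eq (x : Sp S Y) m hx]
    refine (countable_singleton _).union ?_
    exact ((Set.to_countable _).biUnion fun k _ => ih (Y x k) (hφ x hx k) (k + 1))
  · rw [nb_eq' (x : Sp S Y) m hx]
    exact countable_singleton _

theorem isCompact_nb {W : Type} [LinearOrder W] [WellFoundedLT W] (φ : ℝ → W)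
    (hφ : ∀ x ∈ S, ∀ k, φ (Y x k) < φ x) (x : Sp S Y) : ∀ m, IsCompact (nb S Y x m) := by
  have wf : WellFounded (fun a b : ℝ => φ a < φ b) := InvImage.wf φ wellFounded_lt
  refine wf.induction (C := fun x : ℝ => ∀ m, IsCompact (nb S Y (x : Sp S Y) m)) x ?_
  intro x ih m
  by_cases hx : x ∈ S
  · rw [isCompact_iff_finite_subcover]
    intro ι U hU hcov
    have hxm : (x : Sp S Y) ∈ ⋃ i, U i := hcov (self_mem_nb (x : Sp S Y) m)
    obtain ⟨i₀, hi₀⟩ := mem_iUnion.1 hxm
    obtain ⟨n, hn⟩ := isOpen_iff.1 (hU i₀) _ hi₀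
    have hK : IsCompact (⋃ k ∈ {k | m ≤ k ∧ k < n}, nb S Y (Y x k : ℝ) (k + 1)) := by
      refine Set.Finite.isCompact_biUnion ?_ fun k _ => ih (Y x k) (hφ x hx k) (k + 1)
      exact (finite_Iio n).subset fun k hk => hk.2
    have hKcov : (⋃ k ∈ {k | m ≤ k ∧ k < n}, nb S Y (Y x k : ℝ) (k + 1)) ⊆ ⋃ i, U i := by
      refine Subset.trans ?_ hcov
      rw [nb_eq (x : Sp S Y) m hx]
      refine Subset.trans ?_ subset_union_right
      exact biUnion_subset_biUnion_left fun k hk => hk.1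
    obtain ⟨t, ht⟩ := hK.elim_finite_subcover U hU hKcov
    classical
    refine ⟨insert i₀ t, ?_⟩
    rw [nb_eq (x : Sp S Y) m hx]
    rintro z (hz | hz)
    · have hz' : z = (x : Sp S Y) := hz
      simp only [mem_iUnion, exists_prop]
      exact ⟨i₀, Finset.mem_insert_self _ _, hz' ▸ hi₀⟩
    · simp only [mem_iUnion, exists_prop] at hz ⊢
      obtain ⟨k, hk, hz⟩ := hz
      by_cases hkn : k < n
      · have : z ∈ ⋃ i ∈ t, U i := by
          apply ht
          simp only [mem_iUnion, exists_prop]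
          exact ⟨k, ⟨hk, hkn⟩, hz⟩
        simp only [mem_iUnion, exists_prop] at this
        obtain ⟨i, hi, hzi⟩ := this
        exact ⟨i, Finset.mem_insert_of_mem hi, hzi⟩
      · refine ⟨i₀, Finset.mem_insert_self _ _, hn ?_⟩
        exact InU.step _ _ k _ hx (not_lt.1 hkn) hz
  · rw [nb_eq' (x : Sp S Y) m hx]
    exact isCompact_singleton

end Sp

/-- the main existence result -/
theorem exists_vd : ∃ (X : Type) (_ : TopologicalSpace X) (π : X → ℝ), IsVD X π := by
  classical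
  -- a well-order of the reals
  have hcard : #ℝ = #(continuum.{0}.ord.ToType) := by rw [mk_ord_toType, mk_real]
  obtain ⟨φ⟩ := Cardinal.eq.1 hcard
  -- tasks
  let J : Type := {T : ℕ → ℕ → ℝ // ¬ (⋂ n, closure (range (T n))).Countable}
  let Cand : J → Set ℝ := fun T => {x | (∀ n, x ∈ closure (range (T.1 n))) ∧ ∀ n k, φ (T.1 n k) < φ x}
  have hJ : #J ≤ continuum.{0} := by
    have h1 : #J ≤ #(ℕ → ℕ → ℝ) := mk_subtype_le _
    have h2 : #(ℕ → ℕ → ℝ) = continuum.{0} := by
      simp [mk_pi, mk_real, prod_const, continuum_power_aleph0]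
    exact h1.trans h2.le
  have hCand : ∀ T : J, continuum.{0} ≤ #(Cand T) := by
    intro T
    by_contra hcon
    rw [not_le] at hcon
    -- the intersection of the closures has the size of the continuum
    have hcl : IsClosed (⋂ n, closure (range (T.1 n))) := isClosed_iInter fun _ => isClosed_closure
    obtain ⟨g, hg1, -, hg3⟩ := hcl.exists_nat_bool_injection_of_not_countable T.2
    have hbig : continuum.{0} ≤ #(⋂ n, closure (range (T.1 n)) : Set ℝ) := by
      have h1 : #(ℕ → Bool) ≤ #(⋂ n, closure (range (T.1 n)) : Set ℝ) :=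
        mk_le_of_injective (f := fun s => (⟨g s, hg1 ⟨s, rfl⟩⟩ : (⋂ n, closure (range (T.1 n)) : Set ℝ)))
          (fun a b hab => hg3 (Subtype.ext_iff.1 hab))
      have h2 : #(ℕ → Bool) = continuum.{0} := by simp
      rwa [h2] at h1
    -- a bound for the points of the task
    have hcof : aleph0.{0} < Order.cof (continuum.{0}.ord.ToType) := by
      have h1 : aleph0.{0} < ((2 : Cardinal.{0}) ^ aleph0.{0}).ord.cof :=
        lt_cof_ord_power le_rfl one_lt_two
      rw [two_power_aleph0] at h1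
      have h2 := Ordinal.cof_type (continuum.{0}.ord.ToType)
      rw [Ordinal.type_toType] at h2
      rwa [h2] at h1
    have hnc : ¬ IsCofinal (range fun p : ℕ × ℕ => φ (T.1 p.1 p.2)) := by
      intro hc
      have h1 := Order.cof_le hc
      have h2 : #(range fun p : ℕ × ℕ => φ (T.1 p.1 p.2)) ≤ aleph0 :=
        mk_range_le.trans (by simp)
      exact absurd (h1.trans h2) (not_le.2 hcof)
    obtain ⟨w, hw⟩ : ∃ w, ∀ p : ℕ × ℕ, φ (T.1 p.1 p.2) < w := by
      by_contra hc
      push Not at hc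
      exact hnc fun w => by
        obtain ⟨p, hp⟩ := hc w
        exact ⟨_, ⟨p, rfl⟩, hp⟩
    have hsub : (⋂ n, closure (range (T.1 n))) ⊆ Cand T ∪ φ ⁻¹' (Iio w) := by
      intro x hx
      rw [mem_iInter] at hx
      by_cases hxw : φ x < w
      · exact Or.inr hxw
      · exact Or.inl ⟨hx, fun n k => (hw (n, k)).trans_le (not_lt.1 hxw)⟩
    have hsmall : #(φ ⁻¹' (Iio w)) < continuum.{0} := by
      have h1 : #(φ ⁻¹' (Iio w)) ≤ #(Iio w) :=
        mk_le_of_injective (f := fun x => (⟨φ x.1, x.2⟩ : Iio w))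
          (fun a b hab => Subtype.ext (φ.injective (Subtype.ext_iff.1 hab)))
      exact h1.trans_lt (mk_Iio_toType_ord_lt w)
    have h1 := hbig.trans ((mk_le_mk_of_subset hsub).trans (mk_union_le _ _))
    exact absurd h1 (not_le.2 (add_lt_of_lt aleph0_le_continuum hcon hsmall))
  obtain ⟨f, hf1, hf2⟩ := exists_transversal Cand fun T => hJ.trans (hCand T)
  -- the converging sequences
  have hseq : ∀ (T : J) (k : ℕ), ∃ i : ℕ, dist (T.1 (Nat.unpair k).1 i) (f T) < (1 / 2) ^ (k + 1) := by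
    intro T k
    have h1 := (hf2 T).1 (Nat.unpair k).1
    rw [Metric.mem_closure_iff] at h1
    obtain ⟨b, ⟨i, rfl⟩, hb⟩ := h1 ((1 / 2) ^ (k + 1)) (by positivity)
    exact ⟨i, by rwa [dist_comm]⟩
  choose idx hidx using hseq
  let S : Set ℝ := range f
  let Y : ℝ → ℕ → ℝ := fun x k => if h : ∃ T, f T = x then
    (Classical.choose h).1 (Nat.unpair k).1 (idx (Classical.choose h) k) else 0
  have hYf : ∀ (T : J) (k : ℕ), Y (f T) k = T.1 (Nat.unpair k).1 (idx T k) := by
    intro T k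
    have hex : ∃ T', f T' = f T := ⟨T, rfl⟩
    have h1 : Classical.choose hex = T := hf1 (Classical.choose_spec hex)
    simp only [Y, hex, dif_pos]
    rw [h1]
  have hY1 : ∀ x ∈ S, ∀ k, dist (Y x k) x < (1 / 2) ^ (k + 1) := by
    rintro _ ⟨T, rfl⟩ k
    rw [hYf]
    exact hidx T k
  have hY2 : ∀ x ∈ S, ∀ k, φ (Y x k) < φ x := by
    rintro _ ⟨T, rfl⟩ k
    rw [hYf]
    exact (hf2 T).2 _ _
  refine ⟨Sp S Y, inferInstance, proj S Y, ?_, ?_, ?_, ?_, ?_⟩
  · exact continuous_proj hY1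
  · exact fun a b hab => hab
  · intro x
    exact ⟨nb S Y x 0, nb_mem_nhds x 0, isCompact_nb φ hY2 x 0, countable_nb φ hY2 x 0⟩
  · intro T hT
    let T' : J := ⟨T, hT⟩
    refine ⟨(f T' : ℝ), ?_, ?_⟩
    · intro n k hh
      have h1 := (hf2 T').2 n k
      have h2 : (T'.1 n k : ℝ) = f T' := hh
      rw [h2] at h1
      exact lt_irrefl _ h1
    · intro n
      refine mem_closure_iff_nhds.2 ?_
      intro t ht
      obtain ⟨m, hm⟩ := mem_nhds_iff'.1 ht
      let k : ℕ := Nat.pair n m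
      have hk : m ≤ k := Nat.right_le_pair n m
      have hkn : (Nat.unpair k).1 = n := by simp [k]
      have h1 : (Y (f T') k : ℝ) = T n (idx T' k) := by
        rw [hYf, hkn]
      refine ⟨(T n (idx T' k)), hm ?_, ⟨_, rfl⟩⟩
      refine InU.step _ _ k _ ⟨T', rfl⟩ hk ?_
      rw [h1]
      exact InU.refl _ _
  · have : Uncountable ℝ := inferInstance
    exact this

end Pool.Agent.Lib.MP_c4305c_gt
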