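import Mathlib

set_option autoImplicit false

/-!
The product of the ordinal space of all countable ordinals with a compact Hausdorff space of
countable tightness is normal; that ordinal space is not paracompact with respect to open covers
of size the first uncountable cardinal.
-/

open Topology Set Filter

namespace Pool.Agent.Lib.MP_c4305c_gt

section Abs

variable {Ω : Type} [ConditionallyCompleteLinearOrderBot Ω] [SuccOrder Ω] [NoMaxOrder Ω]
  [TopologicalSpace Ω] [OrderTopology Ω]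

omit [SuccOrder Ω] [NoMaxOrder Ω] [TopologicalSpace Ω] [OrderTopology Ω] in
theorem sup_seq (hb : ∀ s : Set Ω, s.Countable → BddAbove s) (g : Ω → Ω) (hg : ∀ η, η < g η)
    (γ : Ω) : ∃ (s : ℕ → Ω) (δ : Ω), s 0 = γ ∧ (∀ n, s (n + 1) = g (s n)) ∧ (∀ n, s n < δ) ∧
      ∀ l < δ, ∃ n, l < s n := by
  let s : ℕ → Ω := fun n => Nat.rec γ (fun _ x => g x) n
  have hs1 : ∀ n, s (n + 1) = g (s n) := fun n => rfl
  have hlub : IsLUB (range s) (sSup (range s)) := isLUB_csSup (range_nonempty s) (hb _ (countable_range s))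
  refine ⟨s, sSup (range s), rfl, hs1, ?_, ?_⟩
  · intro n
    calc s n < g (s n) := hg _
      _ = s (n + 1) := (hs1 n).symm
      _ ≤ sSup (range s) := hlub.1 ⟨n + 1, rfl⟩
  · intro l hl
    by_contra hcon
    push Not at hcon
    have : sSup (range s) ≤ l := hlub.2 (by rintro _ ⟨n, rfl⟩; exact hcon n)
    exact absurd hl (not_lt.2 this)

variable {C : Type} [TopologicalSpace C] [CompactSpace C] [T2Space C]

/-- the part of `C` seen by `A` above `γ` -/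
def tailSet (A : Set (Ω × C)) (γ : Ω) : Set C := closure (Prod.snd '' (A ∩ Ioi γ ×ˢ univ))

omit [SuccOrder Ω] [NoMaxOrder Ω] [TopologicalSpace Ω] [OrderTopology Ω] [CompactSpace C]
  [T2Space C] in
theorem tailSet_anti (A : Set (Ω × C)) {γ γ' : Ω} (h : γ ≤ γ') : tailSet A γ' ⊆ tailSet A γ :=
  closure_mono (image_mono (inter_subset_inter_right _ (prod_mono_left (Ioi_subset_Ioi h))))

omit [SuccOrder Ω] [CompactSpace C] [T2Space C] in
theorem unbounded_of_mem (hb : ∀ s : Set Ω, s.Countable → BddAbove s)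
    (ht : ∀ (S : Set C) (c : C), c ∈ closure S → ∃ S₀ ⊆ S, S₀.Countable ∧ c ∈ closure S₀)
    {A : Set (Ω × C)} (hA : IsClosed A) {c : C} (hc : ∀ γ, c ∈ tailSet A γ) (γ : Ω) :
    ∃ δ, γ < δ ∧ (δ, c) ∈ A := by
  have h1 : ∀ η : Ω, ∃ η' : Ω, η < η' ∧ c ∈ closure (Prod.snd '' (A ∩ Ioo η η' ×ˢ univ)) := by
    intro η
    obtain ⟨S₀, hS, hSc, hcS⟩ := ht _ _ (hc η)
    have hch : ∀ z : S₀, ∃ α : Ω, (α, (z : C)) ∈ A ∧ η < α := by
      rintro ⟨z, hz⟩
      obtain ⟨⟨α, z'⟩, ⟨h1, h2⟩, h3⟩ := hS hz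
      simp only at h3
      subst h3
      exact ⟨α, h1, (mem_prod.1 h2).1⟩
    choose a ha1 ha2 using hch
    have := hSc.to_subtype
    obtain ⟨u, hu⟩ := hb _ (countable_range a)
    obtain ⟨v, hv⟩ := exists_gt (max u η)
    refine ⟨v, lt_of_le_of_lt (le_max_right _ _) hv, closure_mono ?_ hcS⟩
    intro z hz
    refine ⟨(a ⟨z, hz⟩, z), ⟨ha1 ⟨z, hz⟩, mk_mem_prod ⟨ha2 ⟨z, hz⟩, ?_⟩ (mem_univ _)⟩, rfl⟩
    exact lt_of_le_of_lt ((hu ⟨_, rfl⟩).trans (le_max_left _ _)) hv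
  choose g hg1 hg2 using h1
  obtain ⟨s, δ, hs0, hs1, hsδ, hsup⟩ := sup_seq hb g hg1 γ
  refine ⟨δ, hs0 ▸ hsδ 0, ?_⟩
  rw [← hA.closure_eq, mem_closure_iff_nhds]
  intro t ht'
  rw [nhds_prod_eq, mem_prod_iff] at ht'
  obtain ⟨O, hO, W, hW, hOW⟩ := ht'
  obtain ⟨l, hl, hlO⟩ := exists_Ioc_subset_of_mem_nhds hO ⟨s 0, hsδ 0⟩
  obtain ⟨n, hn⟩ := hsup l hl
  obtain ⟨z, hzW, ⟨⟨α, z'⟩, ⟨h1, h2⟩, h3⟩⟩ := mem_closure_iff_nhds.1 (hg2 (s n)) W hW
  simp only at h3
  subst h3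
  have h4 := (mem_prod.1 h2).1
  simp only [mem_Ioo] at h4
  refine ⟨(α, z'), hOW (mk_mem_prod (hlO ⟨hn.trans h4.1, ?_⟩) hzW), h1⟩
  rw [← hs1] at h4
  exact (h4.2.trans (hsδ (n + 1))).le

omit [SuccOrder Ω] [CompactSpace C] [T2Space C] in
theorem disjoint_tail (hb : ∀ s : Set Ω, s.Countable → BddAbove s)
    (ht : ∀ (S : Set C) (c : C), c ∈ closure S → ∃ S₀ ⊆ S, S₀.Countable ∧ c ∈ closure S₀)
    {A B : Set (Ω × C)} (hA : IsClosed A) (hB : IsClosed B) (hAB : Disjoint A B) {c : C}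
    (hcA : ∀ γ, c ∈ tailSet A γ) (hcB : ∀ γ, c ∈ tailSet B γ) : False := by
  choose a ha1 ha2 using unbounded_of_mem hb ht hA hcA
  choose b hb1 hb2 using unbounded_of_mem hb ht hB hcB
  obtain ⟨s, δ, hs0, hs1, hsδ, hsup⟩ := sup_seq hb (fun η => b (a η))
    (fun η => (ha1 η).trans (hb1 _)) (⊥ : Ω)
  have key : ∀ (E : Set (Ω × C)), IsClosed E → (∀ n, ∃ x, s n < x ∧ x ≤ s (n + 1) ∧ (x, c) ∈ E) →
      (δ, c) ∈ E := by
    intro E hE hx
    rw [← hE.closure_eq, mem_closure_iff_nhds]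
    intro t ht'
    rw [nhds_prod_eq, mem_prod_iff] at ht'
    obtain ⟨O, hO, W, hW, hOW⟩ := ht'
    obtain ⟨l, hl, hlO⟩ := exists_Ioc_subset_of_mem_nhds hO ⟨s 0, hsδ 0⟩
    obtain ⟨n, hn⟩ := hsup l hl
    obtain ⟨x, hx1, hx2, hx3⟩ := hx n
    exact ⟨(x, c), hOW (mk_mem_prod (hlO ⟨hn.trans hx1, hx2.trans (hsδ _).le⟩)
      (mem_of_mem_nhds hW)), hx3⟩
  have h1 : (δ, c) ∈ A := key A hA fun n => ⟨a (s n), ha1 _, by rw [hs1]; exact (hb1 _).le, ha2 _⟩
  have h2 : (δ, c) ∈ B := key B hB fun n => ⟨b (a (s n)), (ha1 _).trans (hb1 _), by rw [hs1], hb2 _⟩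
  exact disjoint_left.1 hAB h1 h2

theorem normal_prod (hb : ∀ s : Set Ω, s.Countable → BddAbove s)
    (ht : ∀ (S : Set C) (c : C), c ∈ closure S → ∃ S₀ ⊆ S, S₀.Countable ∧ c ∈ closure S₀) :
    NormalSpace (Ω × C) := by
  constructor
  intro A B hA hB hAB
  have hLA : IsClosed (⋂ γ : Ω, tailSet A γ) := isClosed_iInter fun _ => isClosed_closure
  have hLB : IsClosed (⋂ γ : Ω, tailSet B γ) := isClosed_iInter fun _ => isClosed_closure
  have hL : Disjoint (⋂ γ : Ω, tailSet A γ) (⋂ γ : Ω, tailSet B γ) := by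
    refine disjoint_left.2 fun c hc hc' => ?_
    rw [mem_iInter] at hc hc'
    exact disjoint_tail hb ht hA hB hAB hc hc'
  obtain ⟨U, V, hU, hV, hAU, hBV, hUV⟩ := normal_separation hLA hLB hL
  have hdir : ∀ E : Set (Ω × C), Directed (· ⊇ ·) (fun γ : Ω => tailSet E γ) := fun E γ γ' =>
    ⟨max γ γ', tailSet_anti E (le_max_left _ _), tailSet_anti E (le_max_right _ _)⟩
  obtain ⟨γ₁, hγ₁⟩ := exists_subset_nhds_of_compactSpace (hdir A) (fun _ => isClosed_closure)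
    (U := U) (fun x hx => hU.mem_nhds (hAU hx))
  obtain ⟨γ₂, hγ₂⟩ := exists_subset_nhds_of_compactSpace (hdir B) (fun _ => isClosed_closure)
    (U := V) (fun x hx => hV.mem_nhds (hBV hx))
  set γ := max γ₁ γ₂ with hγ
  have hA1 : ∀ p ∈ A, γ < p.1 → p.2 ∈ U := by
    intro p hp hlt
    refine hγ₁ (tailSet_anti A (le_max_left γ₁ γ₂) (subset_closure ⟨p, ⟨hp, ?_⟩, rfl⟩))
    exact mem_prod.2 ⟨hlt, mem_univ _⟩
  have hB1 : ∀ p ∈ B, γ < p.1 → p.2 ∈ V := by
    intro p hp hlt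
    refine hγ₂ (tailSet_anti B (le_max_right γ₁ γ₂) (subset_closure ⟨p, ⟨hp, ?_⟩, rfl⟩))
    exact mem_prod.2 ⟨hlt, mem_univ _⟩
  have hcomp : IsCompact (Iic γ ×ˢ (univ : Set C)) := by
    have : IsCompact (Iic γ) := by rw [← Icc_bot]; exact isCompact_Icc
    exact this.prod isCompact_univ
  obtain ⟨P, R, hP, hR, hAP, hBR, hPR⟩ := SeparatedNhds.of_isCompact_isCompact
    (hcomp.inter_right hA) (hcomp.inter_right hB)
    (hAB.mono inter_subset_right inter_subset_right)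
  have hopen : IsOpen (Iic γ ×ˢ (univ : Set C)) := by
    rw [← Order.Iio_succ]
    exact isOpen_Iio.prod isOpen_univ
  refine ⟨(P ∩ Iic γ ×ˢ univ) ∪ (Ioi γ ×ˢ U), (R ∩ Iic γ ×ˢ univ) ∪ (Ioi γ ×ˢ V),
    (hP.inter hopen).union (isOpen_Ioi.prod hU), (hR.inter hopen).union (isOpen_Ioi.prod hV),
    ?_, ?_, ?_⟩
  · intro p hp
    rcases le_or_gt p.1 γ with h | h
    · have hmem : p ∈ Iic γ ×ˢ (univ : Set C) := mem_prod.2 ⟨h, mem_univ _⟩
      exact Or.inl ⟨hAP ⟨hmem, hp⟩, hmem⟩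
    · exact Or.inr (mem_prod.2 ⟨h, hA1 p hp h⟩)
  · intro p hp
    rcases le_or_gt p.1 γ with h | h
    · have hmem : p ∈ Iic γ ×ˢ (univ : Set C) := mem_prod.2 ⟨h, mem_univ _⟩
      exact Or.inl ⟨hBR ⟨hmem, hp⟩, hmem⟩
    · exact Or.inr (mem_prod.2 ⟨h, hB1 p hp h⟩)
  · refine disjoint_left.2 ?_
    rintro p (⟨hp1, hp2⟩ | hp) (⟨hp1', hp2'⟩ | hp')
    · exact disjoint_left.1 hPR hp1 hp1'
    · exact absurd (mem_prod.1 hp').1 (not_lt.2 (mem_prod.1 hp2).1)
    · exact absurd (mem_prod.1 hp).1 (not_lt.2 (mem_prod.1 hp2').1)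
    · exact disjoint_left.1 hUV (mem_prod.1 hp).2 (mem_prod.1 hp').2

omit [SuccOrder Ω] [NoMaxOrder Ω] in
/-- no locally finite open refinement of the cover by initial segments -/
theorem not_refine (hb : ∀ s : Set Ω, s.Countable → BddAbove s) (V : Ω → Set Ω)
    (hV : ∀ i, V i ⊆ Iio i) (hcov : (⋃ i, V i) = univ) (hlf : LocallyFinite V) : False := by
  -- only finitely many nonempty members
  have hfin : {i | (V i).Nonempty}.Finite := by
    by_contra hcon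
    obtain ⟨f, hf⟩ : ∃ f : ℕ ↪ Ω, ∀ n, f n ∈ {i | (V i).Nonempty} := by
      have := Set.Infinite.natEmbedding _ hcon
      exact ⟨this.trans (Function.Embedding.subtype _), fun n => (this n).2⟩
    choose y hy using hf
    obtain ⟨u, hu⟩ := hb _ (countable_range y)
    have hc : IsCompact (Iic u) := by rw [← Icc_bot]; exact isCompact_Icc
    have h1 := hlf.finite_nonempty_inter_compact hc
    have h2 : (range f).Infinite := infinite_range_of_injective f.injective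
    refine h2 (h1.subset ?_)
    rintro _ ⟨n, rfl⟩
    exact ⟨y n, hy n, hu ⟨n, rfl⟩⟩
  obtain ⟨u, hu⟩ := hb _ hfin.countable
  have : u ∈ ⋃ i, V i := by rw [hcov]; trivial
  obtain ⟨i, hi⟩ := mem_iUnion.1 this
  have h1 : i ≤ u := hu ⟨u, hi⟩
  exact absurd (hV i hi) (not_lt.2 h1)

end Abs

/-- the set of countable ordinals -/
def W1 : Type := (Cardinal.aleph 1).ord.ToType

theorem mk_W1 : Cardinal.mk W1 = Cardinal.aleph 1 := Cardinal.mk_ord_toType _

theorem exists_omega_aux : ∃ (_ : ConditionallyCompleteLinearOrderBot (Cardinal.aleph 1).ord.ToType)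
    (_ : SuccOrder (Cardinal.aleph 1).ord.ToType)
    (_ : NoMaxOrder (Cardinal.aleph 1).ord.ToType),
    ∀ s : Set (Cardinal.aleph 1).ord.ToType, s.Countable → BddAbove s := by
  have hno : NoMaxOrder (Cardinal.aleph 1).ord.ToType :=
    Cardinal.noMaxOrder (Cardinal.aleph0_le_aleph 1)
  have hne : Nonempty (Cardinal.aleph 1).ord.ToType := by
    rw [Ordinal.nonempty_toType_iff, ne_eq, Cardinal.ord_eq_zero]
    exact (Cardinal.aleph_pos 1).ne'
  let hbot : OrderBot (Cardinal.aleph 1).ord.ToType := WellFoundedLT.toOrderBot _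
  refine ⟨WellFoundedLT.conditionallyCompleteLinearOrderBot _,
    SuccOrder.ofLinearWellFoundedLT _, hno, ?_⟩
  intro s hs
  by_contra hcon
  have hcov : (univ : Set (Cardinal.aleph 1).ord.ToType) ⊆ ⋃ i ∈ s, Iio i := by
    intro x _
    rw [not_bddAbove_iff] at hcon
    obtain ⟨y, hy, hxy⟩ := hcon x
    simp only [mem_iUnion, exists_prop]
    exact ⟨y, hy, hxy⟩
  have hc : (univ : Set (Cardinal.aleph 1).ord.ToType).Countable := by
    refine (hs.biUnion fun i _ => ?_).mono hcov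
    rw [← Cardinal.le_aleph0_iff_set_countable, ← Cardinal.lt_aleph_one_iff]
    exact Cardinal.mk_Iio_toType_ord_lt i
  rw [← Cardinal.le_aleph0_iff_set_countable, Cardinal.mk_univ, Cardinal.mk_ord_toType] at hc
  exact absurd hc (not_le.2 Cardinal.aleph0_lt_aleph_one)

theorem exists_omega : ∃ (_ : ConditionallyCompleteLinearOrderBot W1) (_ : SuccOrder W1)
    (_ : NoMaxOrder W1), ∀ s : Set W1, s.Countable → BddAbove s := exists_omega_aux

end Pool.Agent.Lib.MP_c4305c_gt
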